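import Mathlib
import Pool.Agent.H246.Assemble2
import Pool.Agent.H246.TTree
import Pool.Agent.H246.Index

set_option autoImplicit false

namespace Pool.Agent.Results.MP_34f7ca_lc.DomNumber

open Pool.Agent.Helper743 Pool.Agent.H246

/-- Let `P` be a locally countable partial order of cardinality at most the continuum in which
every element `p` has at most `𝔡` many neighbours, i.e. elements which are incomparable with
`p` but have a common upper bound with `p`; here `𝔡` is the dominating number. Then `P` embeds in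
the Turing degrees. -/
theorem result (P : Type) [PartialOrder P]
    (hP : Cardinal.mk P ≤ Cardinal.continuum)
    (hloc : ∀ x : P, (Set.Iio x).Countable)
    (hN : ∀ p : P, Cardinal.mk {q : P | ¬ p ≤ q ∧ ¬ q ≤ p ∧ ∃ r, p ≤ r ∧ q ≤ r} ≤
      sInf {c : Cardinal.{0} | ∃ D : Set (ℕ → ℕ),
        (∀ f : ℕ → ℕ, ∃ g ∈ D, ∃ N, ∀ n, N ≤ n → f n ≤ g n) ∧ c = Cardinal.mk D}) :
    ∃ F : P → ℕ → ℕ, ∀ x y : P,
      x ≤ y ↔ TuringReducible (fun n => Part.some (F x n)) (fun n => Part.some (F y n)) := by
  obtain ⟨I, _, _, idx, h1, h2, h3, h4⟩ := exists_index hP hloc domN aleph0_lt_domN hN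
  obtain ⟨ev, hev⟩ : ∃ ev : ℕ → List ℕ → ℕ → Option ℕ, {ev | IsFn ev} = Set.range ev := by
    apply countable_fn.exists_eq_range
    refine ⟨fun _ _ => none, ?_, ?_⟩
    · exact (Computable.const none).to₂
    · intro σ τ x y _ h
      cases h
  have hev1 : ∀ a, IsFn (ev a) := fun a => by
    have : ev a ∈ {ev | IsFn ev} := by rw [hev]; exact ⟨a, rfl⟩
    exact this
  have hev2 : ∀ ev', IsFn ev' → ∃ a, ev a = ev' := fun ev' h => by
    have : ev' ∈ {ev | IsFn ev} := h
    rw [hev] at this
    exact this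
  obtain ⟨h, C, hT⟩ := exists_tree ev hev1
  obtain ⟨x, e, f, hf⟩ := assemble2 hev1 hev2 hT hloc idx h1 h2 h3 h4
  refine ⟨f, fun p q => ⟨fun hpq => TR_iff.1 ?_, fun hpq => ?_⟩⟩
  · rcases eq_or_lt_of_le hpq with rfl | hlt
    · exact TR.refl _
    · obtain ⟨n, hn⟩ := hf.all q trivial p hlt
      have hr : n ∈ Set.range h := by
        by_contra hcon
        rw [hf.sp q trivial n hcon] at hn
        cases hn
      obtain ⟨k, rfl⟩ := hr
      have c1 : Computable (fun t : ℕ => Nat.pair (h k) t) :=
        (Primrec₂.natPair.comp (Primrec.const _) Primrec.id).to_comp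
      have h1 := (TR.refl (f q)).comp (Computable.recT c1)
      refine Nat.RecursiveIn.of_eq h1 ?_
      intro t
      have h2 : f q (Nat.pair (h k) t) = f p t := by
        rw [hf.val q trivial, hT.sp, hn]
        simp [rv]
      simp only
      rw [h2]
  · by_contra hxy
    refine hf.ind {q} (by simp) (by simp) p trivial (by simpa using hxy) ?_
    have h' : TR (f p) (f q) := TR_iff.2 hpq
    refine RecT.subst h' ?_
    intro g hg
    rw [Set.mem_singleton_iff] at hg
    subst hg
    exact Nat.RecursiveIn.oracle _ ⟨q, by simp, rfl⟩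

end Pool.Agent.Results.MP_34f7ca_lc.DomNumber
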